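import Mathlib
import Pool.Agent.TH901.AR.Dense

/-! Almost radically closed fields: the ampleness property for Kummer coverings of affine spaces
branched along hyperplanes, and for diagonal systems. -/

set_option autoImplicit false
set_option linter.all false

namespace Pool.Agent.Results.MP_f30f9b_al.KummerSystems

/-- `K` is almost radically closed: the `n`-th powers have finite index in `Kˣ` for all `n ≥ 1`
(the index of a subgroup of infinite index is `0` in Mathlib). -/
def AlmostRadicallyClosed (K : Type) [Field K] : Prop :=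
  ∀ n : ℕ, 1 ≤ n → (powMonoidHom n : Kˣ →* Kˣ).range.index ≠ 0

/-- The value of the affine form `a + ∑ A_v X_v` at the point `x` of `K^V`. -/
def aff {K V : Type} [Field K] [Fintype V] (a : K) (A : V → K) (x : V → K) : K :=
  a + ∑ v, A v * x v

/-- The value of the affine form `a + ∑ A_v X_v` at the point `ξ` of `K((t))^V`. -/
noncomputable def affT {K V : Type} [Field K] [Fintype V] (a : K) (A : V → K)
    (ξ : V → LaurentSeries K) : LaurentSeries K :=
  HahnSeries.C a + ∑ v, HahnSeries.C (A v) * ξ v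

/-- A Kummer system over `K`: affine forms `ℓ_i = a_i + ∑ A_iv X_v`, constants `c_j`, exponents
`m_j ≥ 1` and `e_ji ≥ 0`; it stands for the equations `Y_j ^ m_j = c_j ∏_i ℓ_i(X) ^ e_ji`. -/
structure KummerSystem (K I J V : Type) where
  a : I → K
  A : I → V → K
  c : J → K
  m : J → ℕ
  e : J → I → ℕ
  one_le : ∀ j, 1 ≤ m j

/-- `(x, y)` is a solution of the system in `K`. -/
def KummerSystem.Sol {K I J V : Type} [Field K] [Fintype I] [Fintype V]
    (S : KummerSystem K I J V) (x : V → K) (y : J → K) : Prop :=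
  ∀ j, y j ^ S.m j = S.c j * ∏ i, aff (S.a i) (S.A i) x ^ S.e j i

/-- `(ξ, υ)` is a solution of the system in `K((t))`. -/
def KummerSystem.SolT {K I J V : Type} [Field K] [Fintype I] [Fintype V]
    (S : KummerSystem K I J V) (ξ : V → LaurentSeries K) (υ : J → LaurentSeries K) : Prop :=
  ∀ j, υ j ^ S.m j = HahnSeries.C (S.c j) * ∏ i, affT (S.a i) (S.A i) ξ ^ S.e j i

theorem result :
    -- (0) infinite fields and subgroups of finite index
    (∀ (K : Type) [Field K] [Infinite K] (G : Subgroup Kˣ), G.index ≠ 0 →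
      ∀ (I V : Type) [Fintype I] [Fintype V] (a : I → K) (A : I → V → K)
        (ξ : V → LaurentSeries K),
        ∃ x : V → K, ∀ i, ∃ g ∈ G,
          aff (a i) (A i) x = (affT (a i) (A i) ξ).leadingCoeff * ((g : Kˣ) : K)) ∧
    ∀ (K : Type) [Field K] [Infinite K], AlmostRadicallyClosed K →
      -- (1) Kummer systems, existential closedness in `K((t))`
      (∀ (I J V : Type) [Fintype I] [Fintype J] [Fintype V] (S : KummerSystem K I J V)
        (ξ : V → LaurentSeries K) (υ : J → LaurentSeries K), S.SolT ξ υ →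
        (∃ (x : V → K) (y : J → K), S.Sol x y ∧
          (∀ i, aff (S.a i) (S.A i) x = 0 ↔ affT (S.a i) (S.A i) ξ = 0) ∧
          ∀ j, y j = 0 ↔ υ j = 0) ∧
        ∀ v, (∀ α : K, ξ v ≠ HahnSeries.C α) →
          {t : K | ∃ (x : V → K) (y : J → K), S.Sol x y ∧ x v = t}.Infinite) ∧
      -- (2) Kummer systems with an unramified rational point: Zariski density
      (∀ (I J V : Type) [Fintype I] [Fintype J] [Fintype V] (S : KummerSystem K I J V)
        (x₀ : V → K) (y₀ : J → K), (∀ j, y₀ j ≠ 0) → S.Sol x₀ y₀ →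
        ∀ P : MvPolynomial V K, P ≠ 0 →
          ∃ (x : V → K) (y : J → K), (∀ j, y j ≠ 0) ∧ S.Sol x y ∧ MvPolynomial.eval x P ≠ 0) ∧
      -- (3) diagonal systems, existential closedness in `K((t))`
      (∀ (R J : Type) [Fintype R] [Fintype J] (b : R → K) (B : R → J → K) (m : J → ℕ),
        (∀ j, 1 ≤ m j) → ∀ η : J → LaurentSeries K,
        (∀ r, ∑ j, HahnSeries.C (B r j) * η j ^ m j = HahnSeries.C (b r)) →
        ∃ y : J → K, (∀ r, ∑ j, B r j * y j ^ m j = b r) ∧ ∀ j, y j = 0 ↔ η j = 0) := by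
  refine ⟨?_, ?_⟩
  · intro K _ _ G hG I V _ _ a A ξ
    have : G.FiniteIndex := ⟨hG⟩
    exact Pool.TH901.AR.core G a A ξ
  · intro K _ _ hK
    refine ⟨?_, ?_, ?_⟩
    · intro I J V _ _ _ S ξ υ h
      exact ⟨Pool.TH901.AR.kummer K hK S.a S.A S.c S.m S.e S.one_le ξ υ h,
        fun v hv => Pool.TH901.AR.kummer_inf K hK S.a S.A S.c S.m S.e S.one_le ξ υ h v hv⟩
    · intro I J V _ _ _ S x₀ y₀ hy₀ h P hP
      exact Pool.TH901.AR.dense K hK S.a S.A S.c S.m S.e S.one_le x₀ y₀ hy₀ h P hP
    · intro R J _ _ b B m hm η h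
      exact Pool.TH901.AR.diagonal K hK b B m hm η h

end Pool.Agent.Results.MP_f30f9b_al.KummerSystems
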